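import Pool.Agent.D0H6.CD.Minor

/-!
# The smallest critical densities above 2

`m₁ = min (B ∩ (2,∞)) = 33/16` and `m₂ = min (B₂ ∩ (2,∞)) = 11/5`.
-/

set_option autoImplicit false

namespace Pool.Agent.Results.MP_e95e88_co.CriticalDensities

open Finset Classical

/-- finite graphs (on the vertex sets `Fin n`) -/
abbrev FGraph : Type := Σ n : ℕ, SimpleGraph (Fin n)

/-- `H` is a minor of `G`: there are pairwise disjoint connected vertex sets of `G`, one for each
vertex of `H`, such that the sets of adjacent vertices of `H` are joined by an edge of `G`. -/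
def IsMinor (H G : FGraph) : Prop :=
  ∃ B : Fin H.1 → Set (Fin G.1), (∀ w, (G.2.induce (B w)).Connected) ∧
    (∀ w w', w ≠ w' → Disjoint (B w) (B w')) ∧
    ∀ w w', H.2.Adj w w' → ∃ x ∈ B w, ∃ y ∈ B w', G.2.Adj x y

/-- the density `e(G) / v(G)` -/
noncomputable def density (G : FGraph) : ℝ := (G.2.edgeSet.ncard : ℝ) / G.1

/-- proper minor-closed classes -/
structure IsProperMinorClosed (A : Set FGraph) : Prop where
  nonempty : A.Nonempty
  ne_univ : A ≠ Set.univ
  minor_closed : ∀ G ∈ A, ∀ H, IsMinor H G → H ∈ A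

/-- `H` is an excluded minor of `A`: it is not in `A`, and every minor of `H` which is not in `A`
is isomorphic to `H` -/
def IsExcludedMinor (A : Set FGraph) (H : FGraph) : Prop :=
  H ∉ A ∧ ∀ K, IsMinor K H → K ∉ A → Nonempty (K.2 ≃g H.2)

/-- 2-connected: at least three vertices, connected, and connected after removal of any vertex -/
def TwoConnected (G : FGraph) : Prop :=
  3 ≤ G.1 ∧ G.2.Connected ∧ ∀ v, (G.2.induce {v}ᶜ).Connected

/-- every excluded minor is 2-connected -/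
def Addable (A : Set FGraph) : Prop := ∀ H, IsExcludedMinor A H → TwoConnected H

/-- the set of critical densities of proper minor-closed classes -/
def critB : Set ℝ := {β | ∃ A : Set FGraph, IsProperMinorClosed A ∧ IsLUB (density '' A) β}

/-- the set of critical densities of proper addable minor-closed classes -/
def critB2 : Set ℝ :=
  {β | ∃ A : Set FGraph, IsProperMinorClosed A ∧ Addable A ∧ IsLUB (density '' A) β}

/-! ### Auxiliary facts -/

section aux

open Pool.Agent.D0H6.CD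

variable {V W U : Type}

theorem isMinor_iff (H G : FGraph) : IsMinor H G ↔ PM H.2 G.2 := (pm_iff H.2 G.2).symm

theorem IsMinor.trans' {K H G : FGraph} (h1 : IsMinor K H) (h2 : IsMinor H G) : IsMinor K G := by
  rw [isMinor_iff] at *
  exact h1.trans h2

theorem IsMinor.refl' (G : FGraph) : IsMinor G G := (isMinor_iff _ _).2 (PM.refl _)

/-- transport to `Fin n` -/
noncomputable def toF [Finite V] (G : SimpleGraph V) : FGraph :=
  ⟨Nat.card V, G.comap (Finite.equivFin V).symm⟩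

theorem toF_pm [Finite V] (G : SimpleGraph V) : PM (toF G).2 G :=
  pm_of_equiv (Finite.equivFin V).symm (fun _ _ h => h)

theorem pm_toF [Finite V] (G : SimpleGraph V) : PM G (toF G).2 :=
  pm_of_equiv (H := G) (G := G.comap (Finite.equivFin V).symm) (Finite.equivFin V)
    (fun x y h => by
      rw [SimpleGraph.comap_adj, Equiv.symm_apply_apply, Equiv.symm_apply_apply]
      exact h)

theorem dc_toF [Finite V] (G : SimpleGraph V) : dc (toF G).2 = dc G :=
  dc_congr (Finite.equivFin V).symm (fun _ _ => Iff.rfl)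

theorem density_eq (G : FGraph) : density G = (dc G.2 : ℝ) / (2 * G.1) := by
  unfold density
  rw [dc_eq_two_mul]
  push_cast
  rw [mul_div_mul_left _ _ (by norm_num : (2 : ℝ) ≠ 0)]

theorem dc_add_le [Finite V] (G : SimpleGraph V) : dc G + Nat.card V ≤ Nat.card V * Nat.card V := by
  have := Fintype.ofFinite V
  rw [← E2_univ, Nat.card_eq_fintype_card]
  have h1 : ∀ p : V, #(nb G univ p) + 1 ≤ Fintype.card V := by
    intro p
    have h2 : nb G univ p ⊆ univ.erase p := by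
      intro q hq
      rw [mem_nb] at hq
      rw [mem_erase]
      refine ⟨?_, mem_univ _⟩
      rintro rfl
      exact G.loopless.irrefl _ hq.2
    have h3 := card_le_card h2
    rw [card_erase_of_mem (mem_univ _), card_univ] at h3
    have : 0 < Fintype.card V := Fintype.card_pos_iff.2 ⟨p⟩
    omega
  have h4 := sum_le_card_nsmul univ (fun p : V => #(nb G univ p) + 1) (Fintype.card V)
    (fun p _ => h1 p)
  rw [smul_eq_mul, sum_add_distrib, sum_const, card_univ, smul_eq_mul, mul_one] at h4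
  exact h4

theorem dc_small (G : FGraph) (c : ℕ) (h : G.1 = c) : dc G.2 + c ≤ c * c := by
  subst h
  have := dc_add_le G.2
  rwa [Nat.card_fin] at this

theorem exists_excluded {A : Set FGraph} : ∀ m : ℕ, ∀ G : FGraph, G.1 + dc G.2 = m → G ∉ A →
    ∃ K, IsExcludedMinor A K ∧ IsMinor K G := by
  intro m
  induction m using Nat.strong_induction_on with
  | _ m ih =>
    intro G hm hG
    by_cases hex : IsExcludedMinor A G
    · exact ⟨G, hex, IsMinor.refl' G⟩
    · unfold IsExcludedMinor at hex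
      push Not at hex
      obtain ⟨K, hKG, hKA, hiso⟩ := hex hG
      have h1 := (isMinor_iff _ _).1 hKG
      have h2 := h1.card_le
      have h3 := h1.dc_le
      rw [Nat.card_fin, Nat.card_fin] at h2
      have h4 : K.1 + dc K.2 < m := by
        by_contra hcon
        have h5 := h1.iso (by rw [Nat.card_fin, Nat.card_fin]; omega) (by omega)
        exact hiso.false h5.some
      obtain ⟨K', hK', hK'K⟩ := ih _ h4 K rfl hKA
      exact ⟨K', hK', hK'K.trans' hKG⟩

theorem twoConnected_iff (G : FGraph) (h : TwoConnected G) : TwoConn G.2 := by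
  obtain ⟨h1, h2, h3⟩ := h
  refine ⟨by rw [Nat.card_fin]; exact h1, ?_, fun v => (connOn_iff _ _).2 (h3 v)⟩
  rw [connOn_iff]
  exact (SimpleGraph.Iso.connected_iff (SimpleGraph.induceUnivIso _)).2 h2

theorem glue_mem {A : Set FGraph} (hA : IsProperMinorClosed A) (hA2 : Addable A) [Finite V]
    {H : SimpleGraph V} (r : V) (t : ℕ) (hH : toF H ∈ A) : toF (glueG H r t) ∈ A := by
  by_contra hcon
  obtain ⟨K, hK, hKm⟩ := exists_excluded _ _ rfl hcon
  have h1 := twoConnected_iff K (hA2 K hK)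
  have h2 : PM K.2 (glueG H r t) := ((isMinor_iff _ _).1 hKm).trans (toF_pm _)
  have h3 : PM K.2 (toF H).2 := (pm_of_glue h1 h2).trans (pm_toF H)
  exact hK.1 (hA.minor_closed _ hH _ ((isMinor_iff _ _).2 h3))

theorem dense_of_lub {A : Set FGraph} {β : ℝ} (hβ : IsLUB (density '' A) β) (h2 : 2 < β) :
    ∃ G ∈ A, 4 * G.1 < dc G.2 := by
  obtain ⟨_, ⟨G, hG, rfl⟩, h⟩ := (lt_isLUB_iff hβ).1 h2
  refine ⟨G, hG, ?_⟩
  rw [density_eq] at h
  have hpos : (0 : ℝ) < 2 * G.1 := by
    by_contra hcon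
    have h0 : (2 * (G.1 : ℝ)) = 0 := le_antisymm (not_lt.1 hcon) (by positivity)
    rw [h0, div_zero] at h
    norm_num at h
  rw [lt_div_iff₀ hpos] at h
  have h3 : ((4 * G.1 : ℕ) : ℝ) < (dc G.2 : ℝ) := by push_cast; linarith
  exact_mod_cast h3

theorem lower1 {β : ℝ} (hβ : β ∈ critB) (h2 : 2 < β) : 33 / 16 ≤ β := by
  obtain ⟨A, hA, hlub⟩ := hβ
  obtain ⟨G, hG, hd⟩ := dense_of_lub hlub h2
  obtain ⟨W, _, H, -, hHG, hc, he⟩ := dense_minor (G := G.2) (k := 3)
    (by rw [Nat.card_fin]; exact hd) (by omega) (by omega)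
  have hmem : toF H ∈ A := hA.minor_closed _ hG _ ((isMinor_iff _ _).2 ((toF_pm H).trans hHG))
  have h3 : density (toF H) ≤ β := hlub.1 ⟨_, hmem, rfl⟩
  refine le_trans ?_ h3
  rw [density_eq, dc_toF]
  change (33 / 16 : ℝ) ≤ (dc H : ℝ) / (2 * ((Nat.card W : ℕ) : ℝ))
  have hpos : 0 < Nat.card W := by
    by_contra hcon
    have := dc_add_le H
    have h0 : Nat.card W = 0 := by omega
    rw [h0] at this he
    omega
  have hpos' : (0 : ℝ) < 2 * ((Nat.card W : ℕ) : ℝ) := by positivity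
  rw [le_div_iff₀ hpos']
  have h4 : ((4 * Nat.card W + 2 * 3 : ℕ) : ℝ) ≤ ((dc H + 4 : ℕ) : ℝ) := by exact_mod_cast he
  have h5 : ((Nat.card W : ℕ) : ℝ) ≤ 16 := by
    have : Nat.card W ≤ 16 := by omega
    exact_mod_cast this
  push_cast at h4
  linarith

theorem lower2 {β : ℝ} (hβ : β ∈ critB2) (h2 : 2 < β) : 11 / 5 ≤ β := by
  obtain ⟨A, hA, hadd, hlub⟩ := hβ
  obtain ⟨G, hG, hd⟩ := dense_of_lub hlub h2
  obtain ⟨W, _, H, hne, hHG, hc, he⟩ := dense_minor (G := G.2) (k := 1)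
    (by rw [Nat.card_fin]; exact hd) (by norm_num) (by norm_num)
  have hmem : toF H ∈ A := hA.minor_closed _ hG _ ((isMinor_iff _ _).2 ((toF_pm H).trans hHG))
  have hpos : 2 ≤ Nat.card W := by
    by_contra hcon
    have := dc_add_le H
    have h00 : 0 < Nat.card W := Nat.card_pos
    have h0 : Nat.card W = 1 := by omega
    rw [h0] at this he
    omega
  obtain ⟨r⟩ := hne
  have key : ∀ t : ℕ, (t : ℝ) * (dc H : ℝ) ≤ β * (2 * (t * ((Nat.card W : ℝ) - 1) + 1)) := by
    intro t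
    have h3 : density (toF (glueG H r t)) ≤ β := hlub.1 ⟨_, glue_mem hA hadd r t hmem, rfl⟩
    rw [density_eq, dc_toF] at h3
    have h4 : ((toF (glueG H r t)).1 : ℝ) = t * ((Nat.card W : ℝ) - 1) + 1 := by
      change ((Nat.card _ : ℕ) : ℝ) = _
      rw [card_glue]
      push_cast [Nat.cast_sub (by omega : 1 ≤ Nat.card W)]
      ring
    have h6 : (0 : ℝ) < 2 * (t * ((Nat.card W : ℝ) - 1) + 1) := by
      have : (2 : ℝ) ≤ (Nat.card W : ℝ) := by exact_mod_cast hpos
      have : (0 : ℝ) ≤ t * ((Nat.card W : ℝ) - 1) := mul_nonneg (by positivity) (by linarith)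
      linarith
    rw [h4, div_le_iff₀ h6] at h3
    have h5 : ((t * dc H : ℕ) : ℝ) ≤ (dc (glueG H r t) : ℝ) := by exact_mod_cast dc_glue H r t
    push_cast at h5
    linarith
  by_contra hcon
  push Not at hcon
  have hm1 : (1 : ℝ) ≤ (Nat.card W : ℝ) - 1 := by
    have : (2 : ℝ) ≤ (Nat.card W : ℝ) := by exact_mod_cast hpos
    linarith
  have hm2 : 11 * ((Nat.card W : ℝ) - 1) * 2 ≤ 5 * (dc H : ℝ) := by
    have h4 : ((4 * Nat.card W + 2 * 1 : ℕ) : ℝ) ≤ ((dc H + 4 : ℕ) : ℝ) := by exact_mod_cast he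
    have h5 : ((Nat.card W : ℕ) : ℝ) ≤ 6 := by
      have : Nat.card W ≤ 6 := by omega
      exact_mod_cast this
    push_cast at h4
    linarith
  set m : ℝ := (Nat.card W : ℝ) - 1 with hm
  obtain ⟨t, ht⟩ := exists_nat_gt (β / (11 / 5 - β))
  have hδ : (0 : ℝ) < 11 / 5 - β := by linarith
  rw [div_lt_iff₀ hδ] at ht
  have h7 := key t
  have ht0 : (0 : ℝ) ≤ t := by positivity
  have h8 : (t : ℝ) * (11 * m * 2) ≤ t * (5 * (dc H : ℝ)) := mul_le_mul_of_nonneg_left hm2 ht0
  -- β (t m + 1) ≥ (11/5) t m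
  have h9 : (11 / 5 - β) * (t * m) ≤ β := by linarith
  have h10 : (t : ℝ) * 1 ≤ t * m := mul_le_mul_of_nonneg_left hm1 ht0
  have h11 : (11 / 5 - β) * ((t : ℝ) * 1) ≤ (11 / 5 - β) * (t * m) :=
    mul_le_mul_of_nonneg_left h10 hδ.le
  linarith

/-! ### The graph `G₁` -/

/-- a vertex joined to all vertices of a bowtie -/
def G1 : SimpleGraph (Fin 6) where
  Adj a b := (a ≠ b) ∧ (a = 0 ∨ b = 0 ∨ a = 1 ∨ b = 1 ∨ (a = 2 ∧ b = 3) ∨ (a = 3 ∧ b = 2) ∨
    (a = 4 ∧ b = 5) ∨ (a = 5 ∧ b = 4))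
  symm := ⟨by decide⟩
  loopless := ⟨by decide⟩

instance : DecidableRel G1.Adj := fun a b => by unfold G1; infer_instance

theorem dc_eq_card {n : ℕ} (G : SimpleGraph (Fin n)) [DecidableRel G.Adj] :
    dc G = #(univ.filter fun p : Fin n × Fin n => G.Adj p.1 p.2) := by
  unfold dc
  rw [← Set.ncard_coe_finset]
  congr 1
  ext p
  simp

theorem dc_G1 : dc G1 = 22 := by
  rw [dc_eq_card]
  decide

theorem G1_minor {H : SimpleGraph W} (h : PM H G1) (hc : Nat.card W ≤ 5) : dc H ≤ 16 := by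
  obtain ⟨f, hf, hf2⟩ := h
  obtain ⟨r, hr, hfr⟩ := exists_rep hf
  have : Finite W := Finite.of_injective r hr
  -- a vertex which is not a representative
  obtain ⟨z, hz⟩ : ∃ z, ∀ w, r w ≠ z := by
    by_contra hcon
    push Not at hcon
    have := Nat.card_le_card_of_surjective r (fun z => hcon z)
    rw [Nat.card_fin] at this
    omega
  let i : W × W → Option W × Option W := fun p => (some p.1, some p.2)
  have hi : Function.Injective i := by
    intro p q hpq
    simp only [i, Prod.mk.injEq, Option.some.injEq] at hpq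
    exact Prod.ext hpq.1 hpq.2
  have h1 : dc H = (i '' {p : W × W | H.Adj p.1 p.2}).ncard :=
    (Set.ncard_image_of_injective _ hi).symm
  have hgen : ∀ D : Finset (Fin 6 × Fin 6), #D ≤ 16 →
      (∀ a b : Fin 6, G1.Adj a b → f a ≠ none → f b ≠ none → f a ≠ f b →
        ∃ p ∈ D, f p.1 = f a ∧ f p.2 = f b) → dc H ≤ 16 := by
    intro D hD hcov
    have h2 : i '' {p : W × W | H.Adj p.1 p.2} ⊆
        (fun p : Fin 6 × Fin 6 => (f p.1, f p.2)) '' (D : Set (Fin 6 × Fin 6)) := by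
      rintro _ ⟨p, hp, rfl⟩
      obtain ⟨x, y, hx, hy, hxy⟩ := hf2 p.1 p.2 hp
      have hne : p.1 ≠ p.2 := (show H.Adj p.1 p.2 from hp).ne
      obtain ⟨q, hq, hq1, hq2⟩ := hcov x y hxy (by rw [hx]; simp) (by rw [hy]; simp)
        (by rw [hx, hy]; intro h; exact hne (Option.some.inj h))
      exact ⟨q, hq, by simp only [i, hq1, hq2, hx, hy]⟩
    rw [h1]
    refine (Set.ncard_le_ncard h2 (Set.toFinite _)).trans
      ((Set.ncard_image_le (Set.toFinite _)).trans ?_)
    rw [Set.ncard_coe_finset]; exact hD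
  rcases hfz : f z with _ | w
  · refine hgen (univ.filter fun p : Fin 6 × Fin 6 => G1.Adj p.1 p.2 ∧ p.1 ≠ z ∧ p.2 ≠ z) ?_ ?_
    · have : ∀ z : Fin 6, #(univ.filter fun p : Fin 6 × Fin 6 =>
        G1.Adj p.1 p.2 ∧ p.1 ≠ z ∧ p.2 ≠ z) ≤ 16 := by decide
      exact this z
    · intro a b hab ha hb _
      refine ⟨(a, b), ?_, rfl, rfl⟩
      rw [mem_filter]
      refine ⟨mem_univ _, hab, ?_, ?_⟩
      · rintro rfl; exact ha hfz
      · rintro rfl; exact hb hfz
  · -- `z` has a neighbour in its branch set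
    obtain ⟨y, hzy, hy⟩ : ∃ y, G1.Adj z y ∧ f y = some w := by
      have h3 := (hf w).2 z hfz (r w) (hfr w)
      obtain ⟨a, b, hab, -, hb, ha, -⟩ := exists_border (S := {z}) h3 rfl (hz w)
      rw [Set.mem_singleton_iff] at ha
      subst ha
      exact ⟨b, hab, hb⟩
    refine hgen (univ.filter fun p : Fin 6 × Fin 6 => G1.Adj p.1 p.2 ∧ ¬ (p.1 = y ∧ p.2 = z) ∧
      ¬ (p.1 = z ∧ p.2 = y) ∧ ¬ (p.1 = z ∧ G1.Adj y p.2) ∧ ¬ (p.2 = z ∧ G1.Adj y p.1)) ?_ ?_
    · have : ∀ y z : Fin 6, G1.Adj z y → #(univ.filter fun p : Fin 6 × Fin 6 =>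
        G1.Adj p.1 p.2 ∧ ¬ (p.1 = y ∧ p.2 = z) ∧
        ¬ (p.1 = z ∧ p.2 = y) ∧ ¬ (p.1 = z ∧ G1.Adj y p.2) ∧ ¬ (p.2 = z ∧ G1.Adj y p.1)) ≤ 16 := by
        decide
      exact this y z hzy
    · intro a b hab ha hb hne
      have hyz : f y = f z := by rw [hy, hfz]
      by_cases h4 : a = z ∧ G1.Adj y b
      · obtain ⟨rfl, h5⟩ := h4
        refine ⟨(y, b), ?_, hyz, rfl⟩
        rw [mem_filter]
        refine ⟨mem_univ _, h5, ?_, ?_, ?_, ?_⟩
        · rintro ⟨-, rfl⟩; exact hne rfl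
        · rintro ⟨rfl, -⟩; exact hzy.ne rfl
        · rintro ⟨rfl, -⟩; exact hzy.ne rfl
        · rintro ⟨rfl, -⟩; exact hne rfl
      · by_cases h5 : b = z ∧ G1.Adj y a
        · obtain ⟨rfl, h6⟩ := h5
          refine ⟨(a, y), ?_, rfl, hyz⟩
          rw [mem_filter]
          refine ⟨mem_univ _, h6.symm, ?_, ?_, ?_, ?_⟩
          · rintro ⟨-, rfl⟩; exact hzy.ne rfl
          · rintro ⟨rfl, -⟩; exact hne rfl
          · rintro ⟨rfl, -⟩; exact hne rfl
          · rintro ⟨rfl, -⟩; exact hzy.ne rfl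
        · refine ⟨(a, b), ?_, rfl, rfl⟩
          rw [mem_filter]
          refine ⟨mem_univ _, hab, ?_, ?_, h4, h5⟩
          · rintro ⟨rfl, rfl⟩; exact hne hyz
          · rintro ⟨rfl, rfl⟩; exact hne hyz.symm

/-! ### The classes -/

/-- all minors have `5e + 11 ≤ 11v` -/
def A2 : Set FGraph := {G | ∀ H, IsMinor H G → 0 < H.1 → 5 * dc H.2 + 22 ≤ 22 * H.1}

/-- all minors have `16e ≤ 33v` -/
def A1 : Set FGraph := {G | ∀ H, IsMinor H G → 8 * dc H.2 ≤ 33 * H.1}

theorem dc_K6 : dc (⊤ : SimpleGraph (Fin 6)) = 30 := by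
  rw [dc_eq_card]
  decide

theorem isProper_A2 : IsProperMinorClosed A2 := by
  refine ⟨⟨⟨0, ⊥⟩, ?_⟩, ?_, ?_⟩
  · intro H hH h0
    have := ((isMinor_iff _ _).1 hH).card_le
    rw [Nat.card_fin, Nat.card_fin] at this
    change H.1 ≤ 0 at this
    omega
  · intro h
    have h1 : (⟨6, ⊤⟩ : FGraph) ∈ A2 := by rw [h]; trivial
    have h2 := h1 _ (IsMinor.refl' _) (by norm_num)
    simp only [dc_K6] at h2
    omega
  · intro G hG H hH K hK
    exact hG K (hK.trans' hH)

theorem isProper_A1 : IsProperMinorClosed A1 := by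
  refine ⟨⟨⟨0, ⊥⟩, ?_⟩, ?_, ?_⟩
  · intro H hH
    have := ((isMinor_iff _ _).1 hH).card_le
    rw [Nat.card_fin, Nat.card_fin] at this
    have h3 : H.1 = 0 := by simpa using this
    have h2 := dc_small H 0 h3
    omega
  · intro h
    have h1 : (⟨6, ⊤⟩ : FGraph) ∈ A1 := by rw [h]; trivial
    have h2 := h1 _ (IsMinor.refl' _)
    simp only [dc_K6] at h2
    omega
  · intro G hG H hH K hK
    exact hG K (hK.trans' hH)

theorem addable_A2 : Addable A2 := by
  intro K hK
  obtain ⟨hK1, hK2⟩ := hK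
  -- `K` itself violates the bound
  have hviol : 0 < K.1 ∧ 22 * K.1 < 5 * dc K.2 + 22 := by
    unfold A2 at hK1
    rw [Set.mem_ofPred_eq] at hK1
    push Not at hK1
    obtain ⟨H, hH, h0, hlt⟩ := hK1
    have hHA : H ∉ A2 := fun h => by
      have := h H (IsMinor.refl' H) h0
      omega
    obtain ⟨e⟩ := hK2 H hH hHA
    have h1 : dc H.2 = dc K.2 := dc_congr e.toEquiv (fun x y => e.map_adj_iff.symm)
    have h2 : H.1 = K.1 := by
      have := Nat.card_congr e.toEquiv
      rwa [Nat.card_fin, Nat.card_fin] at this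
    rw [← h1, ← h2]
    exact ⟨h0, hlt⟩
  obtain ⟨h0, hlt⟩ := hviol
  have h3 : 3 ≤ K.1 := by
    by_contra hcon
    have h5 : K.1 = 1 ∨ K.1 = 2 := by omega
    rcases h5 with h5 | h5
    · have := dc_small K _ h5; omega
    · have := dc_small K _ h5; omega
  -- proper parts satisfy the bound
  have hprop : ∀ S : Finset (Fin K.1), S.Nonempty → #S < Nat.card (Fin K.1) →
      5 * E2 K.2 S + 22 ≤ 22 * #S := by
    intro S hS hSu
    rw [Nat.card_fin] at hSu
    have hcS : Nat.card ((S : Set (Fin K.1)) : Type) = #S := by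
      rw [Nat.card_coe_set_eq, Set.ncard_coe_finset]
    have hminor : IsMinor (toF (K.2.induce (S : Set (Fin K.1)))) K :=
      (isMinor_iff _ _).2 ((toF_pm _).trans (pm_induce _ _))
    have hmem : toF (K.2.induce (S : Set (Fin K.1))) ∈ A2 := by
      by_contra hcon
      obtain ⟨e⟩ := hK2 _ hminor hcon
      have h5 := Nat.card_congr e.toEquiv
      rw [Nat.card_fin, Nat.card_fin] at h5
      change Nat.card ((S : Set (Fin K.1)) : Type) = K.1 at h5
      omega
    have h6 := hmem _ (IsMinor.refl' _) (by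
      change 0 < Nat.card ((S : Set (Fin K.1)) : Type)
      rw [hcS]; exact hS.card_pos)
    rw [dc_toF, dc_induce] at h6
    change _ ≤ 22 * Nat.card ((S : Set (Fin K.1)) : Type) at h6
    rw [hcS] at h6
    exact h6
  have h4 := twoConn_of_bound K.2 hprop (by rw [Nat.card_fin]; exact h3)
    (by rw [Nat.card_fin]; exact hlt)
  refine ⟨h3, ?_, fun v => (connOn_iff _ _).1 (h4.2.2 v)⟩
  have h5 := h4.2.1
  rw [connOn_iff] at h5
  exact (SimpleGraph.Iso.connected_iff (SimpleGraph.induceUnivIso _)).1 h5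

theorem G1_mem : toF G1 ∈ A2 := by
  intro H hH h0
  have h1 : PM H.2 G1 := ((isMinor_iff _ _).1 hH).trans (toF_pm G1)
  have h2 := h1.card_le
  have h3 := h1.dc_le
  rw [Nat.card_fin, Nat.card_fin] at h2
  rw [dc_G1] at h3
  have h5 : H.1 ≤ 5 → dc H.2 ≤ 16 := fun h => G1_minor h1 (by rw [Nat.card_fin]; exact h)
  have h6 : H.1 = 1 ∨ H.1 = 2 ∨ H.1 = 3 ∨ H.1 = 4 ∨ H.1 = 5 ∨ H.1 = 6 := by omega
  rcases h6 with h6 | h6 | h6 | h6 | h6 | h6 <;> have h7 := dc_small H _ h6 <;> omega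

theorem glue_G1_mem (t : ℕ) : toF (glueG G1 0 t) ∈ A2 :=
  glue_mem isProper_A2 addable_A2 0 t G1_mem

theorem glue_G1_mem' : toF (glueG G1 0 3) ∈ A1 := by
  intro H hH
  have h1 := glue_G1_mem 3 H hH
  have h2 := ((isMinor_iff _ _).1 hH).card_le
  rw [Nat.card_fin, Nat.card_fin] at h2
  have h3 : (toF (glueG G1 0 3)).1 = 16 := by
    change Nat.card _ = 16
    rw [card_glue, Nat.card_fin]
  rw [h3] at h2
  by_cases h0 : 0 < H.1
  · have := h1 h0
    omega
  · have h5 : H.1 = 0 := by omega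
    have := dc_small H _ h5
    omega

theorem mem1 : (33 / 16 : ℝ) ∈ critB := by
  refine ⟨A1, isProper_A1, ?_, ?_⟩
  · rintro _ ⟨G, hG, rfl⟩
    rw [density_eq]
    have h1 := hG G (IsMinor.refl' G)
    refine div_le_of_le_mul₀ (by positivity) (by norm_num) ?_
    have h2 : ((8 * dc G.2 : ℕ) : ℝ) ≤ ((33 * G.1 : ℕ) : ℝ) := by exact_mod_cast h1
    push_cast at h2
    linarith
  · intro b hb
    have h1 : density (toF (glueG G1 0 3)) ≤ b := hb ⟨_, glue_G1_mem', rfl⟩
    refine le_trans ?_ h1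
    rw [density_eq, dc_toF]
    have h3 : (toF (glueG G1 0 3)).1 = 16 := by
      change Nat.card _ = 16
      rw [card_glue, Nat.card_fin]
    have h4 := dc_glue G1 0 3
    rw [dc_G1] at h4
    have h5 : ((3 * 22 : ℕ) : ℝ) ≤ (dc (glueG G1 0 3) : ℝ) := by exact_mod_cast h4
    rw [h3]
    push_cast at h5 ⊢
    linarith

theorem mem2 : (11 / 5 : ℝ) ∈ critB2 := by
  refine ⟨A2, isProper_A2, addable_A2, ?_, ?_⟩
  · rintro _ ⟨G, hG, rfl⟩
    rw [density_eq]
    refine div_le_of_le_mul₀ (by positivity) (by norm_num) ?_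
    by_cases h0 : 0 < G.1
    · have h1 := hG G (IsMinor.refl' G) h0
      have h2 : ((5 * dc G.2 + 22 : ℕ) : ℝ) ≤ ((22 * G.1 : ℕ) : ℝ) := by exact_mod_cast h1
      push_cast at h2
      linarith
    · have h5 : G.1 = 0 := by omega
      have h4 := dc_small G _ h5
      have h6 : dc G.2 = 0 := by omega
      rw [h6, h5]
      norm_num
  · intro b hb
    have key : ∀ t : ℕ, (t : ℝ) * 22 ≤ b * (2 * (t * 5 + 1)) := by
      intro t
      have h1 : density (toF (glueG G1 0 t)) ≤ b := hb ⟨_, glue_G1_mem t, rfl⟩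
      rw [density_eq, dc_toF] at h1
      have h3 : ((toF (glueG G1 0 t)).1 : ℝ) = t * 5 + 1 := by
        change ((Nat.card _ : ℕ) : ℝ) = _
        rw [card_glue, Nat.card_fin]
        push_cast
        ring
      rw [h3, div_le_iff₀ (by positivity)] at h1
      have h4 := dc_glue G1 0 t
      rw [dc_G1] at h4
      have h5 : ((t * 22 : ℕ) : ℝ) ≤ (dc (glueG G1 0 t) : ℝ) := by exact_mod_cast h4
      push_cast at h5
      linarith
    by_contra hcon
    push Not at hcon
    obtain ⟨t, ht⟩ := exists_nat_gt (b / (11 - 5 * b))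
    have hδ : (0 : ℝ) < 11 - 5 * b := by linarith
    rw [div_lt_iff₀ hδ] at ht
    have := key t
    linarith

end aux

/-- **`m₁ = 33/16` and `m₂ = 11/5`.** -/
theorem result : IsLeast (critB ∩ Set.Ioi 2) (33 / 16 : ℝ) ∧
    IsLeast (critB2 ∩ Set.Ioi 2) (11 / 5 : ℝ) := by
  refine ⟨⟨⟨mem1, ?_⟩, ?_⟩, ⟨mem2, ?_⟩, ?_⟩
  · rw [Set.mem_Ioi]; norm_num
  · rintro β ⟨h1, h2⟩; exact lower1 h1 h2
  · rw [Set.mem_Ioi]; norm_num
  · rintro β ⟨h1, h2⟩; exact lower2 h1 h2

end Pool.Agent.Results.MP_e95e88_co.CriticalDensities
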